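import Pool.Agent.V5helper30.WL.Num

/-!
# Project WL: the Hilbert function does not increase
-/

set_option autoImplicit false

namespace Pool.Agent.V5helper30.WL

variable {d : ℕ}

theorem gg_center (hd : 1 ≤ d) (N : ℕ) (C : ℤ) (hC : 2 * C = (N + 1) * (d - 1)) :
    gg d (N + 3) (C + (d - 1)) = ww d (N + 1) C 0 := by
  rw [show N + 3 = (N + 2) + 1 by ring, gg_succ]
  have h2 := hh_symm (d := d) hd (N + 2) (C + (d - 1))
  push_cast at h2
  rw [show ((N : ℤ) + 2) * (d - 1) - (C + (d - 1)) = C by linarith] at h2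
  rw [← h2, show C + ((d : ℤ) - 1) - d = C - 1 by ring]
  have h3 := gg_succ (d := d) (N + 1) C
  unfold gg at h3
  rw [show N + 2 = N + 1 + 1 by ring, h3]
  unfold ww
  simp

theorem delta_even (hd : 2 ≤ d) (N k P : ℕ) (C : ℤ) (hC : 2 * C = (N + 1) * (d - 1)) (hP : 2 * P ≤ d)
    (hk : 2 * (N + 2) ≤ (k + 1) * P) :
    ∑ j ∈ Finset.range (k + 2), aa (N + 3) j * gg d (N + 3) (d * (k + 2) - 1 + C - d * j) ≤ 0 := by
  have hd1 : 1 ≤ d := by omega
  have hdz : (2 : ℤ) ≤ d := by exact_mod_cast hd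
  refine (sum_le hd1 (N + 3) k (d * (k + 2) - 1 + C) (by push_cast; linarith)).trans ?_
  rw [show (d : ℤ) * (k + 2) - 1 + C - d * (k + 1) = C + (d - 1) by ring,
    show (d : ℤ) * (k + 2) - 1 + C - d * k = C + 2 * d - 1 by ring]
  have h1 := gg_symm (d := d) hd1 (N + 3) C
  push_cast at h1
  rw [show ((N : ℤ) + 3) * (d - 1) + 1 - C = C + 2 * d - 1 by linarith] at h1
  rw [h1]
  have h2 := main_even hd N C P hC hP
  have h3 := aa_step (N + 3) k (by omega)
  have h4 := aa_nonneg (N + 3) k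
  have h5 : 0 ≤ gg d (N + 3) (C + (d - 1)) := gg_nonneg hd1 _ _ (by push_cast; linarith)
  have hkz : (2 : ℤ) * (N + 2) ≤ (k + 1) * P := by exact_mod_cast hk
  obtain ⟨x, hx⟩ : ∃ x, x = gg d (N + 3) (C + (d - 1)) := ⟨_, rfl⟩
  obtain ⟨y, hy⟩ : ∃ y, y = gg d (N + 3) C := ⟨_, rfl⟩
  obtain ⟨a, ha⟩ : ∃ a, a = aa (N + 3) k := ⟨_, rfl⟩
  obtain ⟨b, hb⟩ : ∃ b, b = aa (N + 3) (k + 1) := ⟨_, rfl⟩
  rw [← hx, ← hy] at h2
  rw [← ha, ← hb] at h3
  rw [← ha] at h4
  rw [← hx] at h5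
  rw [← hx, ← hy, ← ha, ← hb]
  push_cast at h3
  have hk0 : (0 : ℤ) ≤ k := by positivity
  -- `(k+1) * (b x - a y) ≤ 0`
  have h6 : 2 * ((N : ℤ) + 3 + k) * x ≤ 2 * (k + 1) * y := by
    have e1 : 2 * ((N : ℤ) + 3 + k) * x ≤ (k + 1) * (P + 2) * x := by
      refine mul_le_mul_of_nonneg_right ?_ h5
      linarith
    have e2 : (k + 1) * (P + 2) * x ≤ 2 * (k + 1) * y := by
      have := mul_le_mul_of_nonneg_left h2 (by linarith : (0 : ℤ) ≤ k + 1)
      linarith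
    exact e1.trans e2
  have h7 : (k + 1) * (b * x - a * y) ≤ 0 := by
    have e1 : (k + 1) * (b * x - a * y) = a * (((N : ℤ) + 3 + k) * x - (k + 1) * y) := by
      have : (k + 1 : ℤ) * (b * x) = (((k : ℤ) + 1) * b) * x := by ring
      rw [mul_sub, this, h3]
      ring
    rw [e1]
    exact mul_nonpos_of_nonneg_of_nonpos h4 (by linarith)
  have h8 : b * x - a * y ≤ 0 := by
    by_contra hc
    push Not at hc
    have := mul_pos (by linarith : (0 : ℤ) < k + 1) hc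
    linarith
  linarith

theorem delta_odd (hd : 4 ≤ d) (N k P : ℕ) (C : ℤ) (hC : 2 * C + 1 = (N + 1) * (d - 1)) (hP : 2 * P + 2 ≤ d)
    (hk : 4 * (N + 2) ≤ (k + 1) * P) :
    ∑ j ∈ Finset.range (k + 2), aa (N + 3) j * gg d (N + 3) (d * (k + 2) - 1 + C - d * j) ≤ 0 := by
  have hd1 : 1 ≤ d := by omega
  have hdz : (4 : ℤ) ≤ d := by exact_mod_cast hd
  refine (sum_le hd1 (N + 3) k (d * (k + 2) - 1 + C) (by push_cast; linarith)).trans ?_
  rw [show (d : ℤ) * (k + 2) - 1 + C - d * (k + 1) = C + (d - 1) by ring,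
    show (d : ℤ) * (k + 2) - 1 + C - d * k = C + 2 * d - 1 by ring]
  have h1 := gg_symm (d := d) hd1 (N + 3) (C + 1)
  push_cast at h1
  rw [show ((N : ℤ) + 3) * (d - 1) + 1 - (C + 1) = C + 2 * d - 1 by linarith] at h1
  rw [h1]
  have h2 := main_odd hd N C P hC hP
  have h3 := aa_step (N + 3) k (by omega)
  have h4 := aa_nonneg (N + 3) k
  have h5 : 0 ≤ gg d (N + 3) (C + (d - 1)) := gg_nonneg hd1 _ _ (by push_cast; linarith)
  have hkz : (4 : ℤ) * (N + 2) ≤ (k + 1) * P := by exact_mod_cast hk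
  obtain ⟨x, hx⟩ : ∃ x, x = gg d (N + 3) (C + (d - 1)) := ⟨_, rfl⟩
  obtain ⟨y, hy⟩ : ∃ y, y = gg d (N + 3) (C + 1) := ⟨_, rfl⟩
  obtain ⟨a, ha⟩ : ∃ a, a = aa (N + 3) k := ⟨_, rfl⟩
  obtain ⟨b, hb⟩ : ∃ b, b = aa (N + 3) (k + 1) := ⟨_, rfl⟩
  rw [← hx, ← hy] at h2
  rw [← ha, ← hb] at h3
  rw [← ha] at h4
  rw [← hx] at h5
  rw [← hx, ← hy, ← ha, ← hb]
  push_cast at h3
  have hk0 : (0 : ℤ) ≤ k := by positivity
  have h6 : 4 * ((N : ℤ) + 3 + k) * x ≤ 4 * (k + 1) * y := by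
    have e1 : 4 * ((N : ℤ) + 3 + k) * x ≤ (k + 1) * (P + 4) * x := by
      refine mul_le_mul_of_nonneg_right ?_ h5
      linarith
    have e2 : (k + 1) * (P + 4) * x ≤ 4 * (k + 1) * y := by
      have := mul_le_mul_of_nonneg_left h2 (by linarith : (0 : ℤ) ≤ k + 1)
      linarith
    exact e1.trans e2
  have h7 : (k + 1) * (b * x - a * y) ≤ 0 := by
    have e1 : (k + 1) * (b * x - a * y) = a * (((N : ℤ) + 3 + k) * x - (k + 1) * y) := by
      have : (k + 1 : ℤ) * (b * x) = (((k : ℤ) + 1) * b) * x := by ring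
      rw [mul_sub, this, h3]
      ring
    rw [e1]
    exact mul_nonpos_of_nonneg_of_nonpos h4 (by linarith)
  have h8 : b * x - a * y ≤ 0 := by
    by_contra hc
    push Not at hc
    have := mul_pos (by linarith : (0 : ℤ) < k + 1) hc
    linarith
  linarith

/-! ### `n = 4` -/

theorem hh_neg (n : ℕ) : ∀ m : ℤ, m < 0 → hh d n m = 0 := by
  induction n with
  | zero => intro m hm; simp only [hh]; rw [if_neg hm.ne]
  | succ n ih =>
    intro m hm
    rw [hh_succ]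
    refine Finset.sum_eq_zero fun a _ => ih _ ?_
    have : (0 : ℤ) ≤ a := by positivity
    linarith

theorem hh_one (j : ℕ) (hj : j < d) : hh d 1 j = 1 := by
  rw [hh_succ]
  simp only [hh]
  rw [Finset.sum_eq_single j]
  · simp
  · intro b _ hb
    rw [if_neg]
    intro h
    apply hb
    have : (j : ℤ) = b := by linarith
    exact_mod_cast this.symm
  · intro h
    exact absurd (Finset.mem_range.2 hj) h

theorem hh_two (j : ℕ) (hj : j < d) : hh d 2 j = j + 1 := by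
  have step : ∀ j : ℕ, j < d → gg d 2 j = 1 := by
    intro j hj
    rw [show (2 : ℕ) = 1 + 1 by rfl, gg_succ, hh_one j hj, hh_neg 1 _ (by omega), sub_zero]
  induction j with
  | zero =>
    have h := step 0 hj
    unfold gg at h
    rw [hh_neg 2 (((0 : ℕ) : ℤ) - 1) (by norm_num), sub_zero] at h
    rw [h]
    norm_num
  | succ j ih =>
    have h := step (j + 1) hj
    unfold gg at h
    rw [show ((j + 1 : ℕ) : ℤ) - 1 = j by push_cast; ring, ih (by omega)] at h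
    push_cast at h ⊢
    linarith

theorem gg_four_c (hd : 1 ≤ d) : gg d 4 ((d - 1) + (d - 1)) = d := by
  have h := gg_center hd 1 (d - 1) (by push_cast; ring)
  rw [show (1 : ℕ) + 3 = 4 by rfl] at h
  rw [h]
  unfold ww
  have h1 := hh_two (d := d) (d - 1) (by omega)
  have h2 : ((d - 1 : ℕ) : ℤ) = d - 1 := by omega
  rw [h2] at h1
  rw [Nat.cast_zero, sub_zero, show (1 : ℕ) + 1 = 2 by rfl, h1, hh_neg 2 _ (by linarith)]
  ring

theorem gg_four_q (hd : 1 ≤ d) : 2 * gg d 4 (d - 1) = d * (d + 1) := by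
  rw [show (4 : ℕ) = 2 + 2 by rfl, gg_two]
  have h1 : ∀ a ∈ Finset.range d, (hh d 2 ((d : ℤ) - 1 - a) - hh d 2 ((d : ℤ) - 1 - a - d)) = (d : ℤ) - a := by
    intro a ha
    rw [Finset.mem_range] at ha
    have h2 := hh_two (d := d) (d - 1 - a) (by omega)
    have h3 : ((d - 1 - a : ℕ) : ℤ) = d - 1 - a := by omega
    rw [h3] at h2
    rw [h2, hh_neg 2 _ (by have : (0 : ℤ) ≤ a := by positivity
                           linarith)]
    ring
  rw [Finset.sum_congr rfl h1]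
  have h4 : ∀ e : ℕ, 2 * ∑ a ∈ Finset.range e, ((d : ℤ) - a) = e * (2 * d - e + 1) := by
    intro e
    induction e with
    | zero => simp
    | succ e ih =>
      rw [Finset.sum_range_succ, mul_add, ih]
      push_cast
      ring
  rw [h4 d]
  ring

theorem delta_four (hd : 2 ≤ d) (k : ℕ) (hk : 2 * (k + 4) ≤ (k + 1) * (d + 1)) :
    ∑ j ∈ Finset.range (k + 2), aa 4 j * gg d 4 (d * (k + 2) - 1 + (d - 1) - d * j) ≤ 0 := by
  have hd1 : 1 ≤ d := by omega
  have hdz : (2 : ℤ) ≤ d := by exact_mod_cast hd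
  refine (sum_le hd1 4 k (d * (k + 2) - 1 + (d - 1)) (by push_cast; linarith)).trans ?_
  rw [show (d : ℤ) * (k + 2) - 1 + (d - 1) - d * (k + 1) = (d - 1) + (d - 1) by ring,
    show (d : ℤ) * (k + 2) - 1 + (d - 1) - d * k = (d - 1) + 2 * d - 1 by ring]
  have h1 := gg_symm (d := d) hd1 4 (d - 1)
  push_cast at h1
  rw [show (4 : ℤ) * (d - 1) + 1 - (d - 1) = (d - 1) + 2 * d - 1 by linarith] at h1
  rw [h1, gg_four_c hd1]
  have h2 := gg_four_q hd1
  have h3 := aa_step 4 k (by omega)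
  have h4 := aa_nonneg 4 k
  have hkz : (2 : ℤ) * (k + 4) ≤ (k + 1) * (d + 1) := by exact_mod_cast hk
  obtain ⟨y, hy⟩ : ∃ y, y = gg d 4 (d - 1) := ⟨_, rfl⟩
  obtain ⟨a, ha⟩ : ∃ a, a = aa 4 k := ⟨_, rfl⟩
  obtain ⟨b, hb⟩ : ∃ b, b = aa 4 (k + 1) := ⟨_, rfl⟩
  rw [← hy] at h2
  rw [← ha, ← hb] at h3
  rw [← ha] at h4
  rw [← hy, ← ha, ← hb]
  push_cast at h3
  have hk0 : (0 : ℤ) ≤ k := by positivity
  have h7 : 2 * (k + 1) * (b * d - a * y) ≤ 0 := by
    have e1 : 2 * (k + 1) * (b * d - a * y) = a * d * (2 * (k + 4) - (k + 1) * (d + 1)) := by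
      have e2 : 2 * (k + 1) * (b * d - a * y) = 2 * (((k : ℤ) + 1) * b) * d - (k + 1) * a * (2 * y) := by ring
      rw [e2, h3, h2]
      ring
    rw [e1]
    exact mul_nonpos_of_nonneg_of_nonpos (mul_nonneg h4 (by linarith)) (by linarith)
  have h8 : b * d - a * y ≤ 0 := by
    by_contra hc
    push Not at hc
    have := mul_pos (by linarith : (0 : ℤ) < 2 * (k + 1)) hc
    linarith
  linarith

end Pool.Agent.V5helper30.WL
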