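import Pool.Agent.V5helper30.WL.Dual
import Pool.Agent.V5helper30.WL.Num2

/-!
# Project WL: assembly
-/

set_option autoImplicit false

open MvPolynomial

namespace Pool.Agent.V5helper30.WL

open Pool.Agent.Helper720.Pow
open Pool.Agent.Helper720.Level (lin exists_lin lin_homogeneous)

variable {K : Type*} [Field K]

/-- Multiplication by the linear form `L` from degree `i` to degree `i + 1` of the graded algebra `S / J` is injective
or surjective. -/
def MaxRank {n : ℕ} (J : Ideal (MvPolynomial (Fin n) K)) (L : MvPolynomial (Fin n) K) (i : ℕ) : Prop :=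
  (∀ f : MvPolynomial (Fin n) K, f.IsHomogeneous i → L * f ∈ J → f ∈ J) ∨
  (∀ g : MvPolynomial (Fin n) K, g.IsHomogeneous (i + 1) →
    ∃ f : MvPolynomial (Fin n) K, f.IsHomogeneous i ∧ g - L * f ∈ J)

/-- The weak Lefschetz property of `S / J`: all multiplications by a generic linear form have maximal rank. -/
def GenericWLP {n : ℕ} (J : Ideal (MvPolynomial (Fin n) K)) : Prop :=
  ∃ P : MvPolynomial (Fin n) K, P ≠ 0 ∧ ∀ a : Fin n → K, eval a P ≠ 0 → ∀ i : ℕ, MaxRank J (∑ c, C (a c) * X c) i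

/-- The weak Lefschetz property of `S / J`, weaker looking form: some linear form works. -/
def SomeWLP {n : ℕ} (J : Ideal (MvPolynomial (Fin n) K)) : Prop :=
  ∃ L : MvPolynomial (Fin n) K, L.IsHomogeneous 1 ∧ ∀ i : ℕ, MaxRank J L i

/-- test with the sum of the variables -/
def Tst (K : Type*) [Field K] (n d k : ℕ) : Prop := ∀ i, InjAt K n d k i 1 ∨ SurjAt K n d k i 1

variable {n d k : ℕ}

theorem some_of_generic {J : Ideal (MvPolynomial (Fin n) K)} [Infinite K] (h : GenericWLP J) : SomeWLP J := by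
  obtain ⟨P, hP, h⟩ := h
  obtain ⟨a, ha⟩ : ∃ a : Fin n → K, eval a P ≠ 0 := by
    by_contra hcon
    push Not at hcon
    exact hP (MvPolynomial.funext fun a => by rw [hcon a, map_zero])
  exact ⟨∑ c, C (a c) * X c, lin_homogeneous a, h a ha⟩

theorem tst_of_some (hd : 1 ≤ d) (h : SomeWLP (powIdeal K n d k)) : Tst K n d k := by
  obtain ⟨L, hL, h⟩ := h
  intro i
  obtain ⟨a, rfl⟩ := exists_lin hL
  rcases h i with h | h
  · left
    refine inj_semi hd a fun f hf hJ => h f hf ?_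
    rwa [pow_one] at hJ
  · right
    refine surj_semi hd a fun g hg => ?_
    obtain ⟨f, hf, hfg⟩ := h g hg
    exact ⟨f, hf, by rwa [pow_one]⟩

theorem generic_of_tst (hd : 1 ≤ d) (h : Tst K n d k) : GenericWLP (powIdeal K n d k) := by
  refine ⟨∏ c, X c, Finset.prod_ne_zero_iff.2 fun c _ => X_ne_zero c, ?_⟩
  intro a ha i
  have ha' : ∀ c, a c ≠ 0 := by
    rw [map_prod] at ha
    intro c
    have := Finset.prod_ne_zero_iff.1 ha c (Finset.mem_univ c)
    rwa [eval_X] at this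
  rcases h i with h | h
  · left
    intro f hf hJ
    refine torus_inj ha' hd h f hf ?_
    rw [pow_one]
    exact hJ
  · right
    intro g hg
    obtain ⟨f, hf, hfg⟩ := torus_surj ha' hd h g hg
    rw [pow_one] at hfg
    exact ⟨f, hf, hfg⟩

theorem generic_iff [Infinite K] (hd : 1 ≤ d) : GenericWLP (powIdeal K n d k) ↔ Tst K n d k :=
  ⟨fun h => tst_of_some hd (some_of_generic h), generic_of_tst hd⟩

theorem some_iff [Infinite K] (hd : 1 ≤ d) : SomeWLP (powIdeal K n d k) ↔ Tst K n d k :=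
  ⟨tst_of_some hd, fun h => some_of_generic (generic_of_tst hd h)⟩

theorem tst_of_slp (hd : 1 ≤ d) (h : HasSLP (powIdeal K n d k)) : Tst K n d k := by
  rw [hasSLP_iff hd] at h
  exact fun i => h i 1 le_rfl

/-- surjectivity fails -/
theorem not_surj_top [CharZero K] (hfex : S_FEX K) (hn : 4 ≤ n) (hd : 1 ≤ d) (hk : 1 ≤ k) (i : ℕ)
    (hi : i + 1 = d * k - 1 + (n - 2) * (d - 1) / 2) : ¬ SurjAt K n d k i 1 := by
  obtain ⟨F, h1, h2, h3, h4⟩ := hfex n d k hn hd hk
  rw [← hi] at h2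
  exact (dual n d k i 1 (fun _ => F) hd (LinearIndependent.of_subsingleton (0 : Fin 1) h1) (fun _ => h2) (fun _ => h3)
    (fun _ => h4)).2 le_rfl

/-- the numerical criterion -/
theorem neg_num [CharZero K] (hfex : S_FEX K) (hn : 4 ≤ n) (hd : 2 ≤ d) (hk : 1 ≤ k)
    (hc : (NN n d k (d * k - 1 + (n - 2) * (d - 1) / 2)).card ≤
      (NN n d k (d * k - 1 + (n - 2) * (d - 1) / 2 - 1)).card) : ¬ Tst K n d k := by
  intro hT
  have hdk : 2 ≤ d * k := by nlinarith
  obtain ⟨i, hi⟩ : ∃ i, i + 1 = d * k - 1 + (n - 2) * (d - 1) / 2 := ⟨d * k - 1 + (n - 2) * (d - 1) / 2 - 1, by omega⟩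
  obtain ⟨F, h1, h2, h3, h4⟩ := hfex n d k hn (by omega) hk
  rw [← hi] at h2 hc
  rw [Nat.add_sub_cancel] at hc
  have hD := dual n d k i 1 (fun _ => F) (by omega) (LinearIndependent.of_subsingleton (0 : Fin 1) h1) (fun _ => h2)
    (fun _ => h3) (fun _ => h4)
  rcases hT i with h | h
  · have := hD.1 h
    omega
  · exact hD.2 le_rfl h

/-- the difference of the values of the Hilbert function -/
theorem card_diff (hcard : S_CARD) (hn : 1 ≤ n) (hd : 1 ≤ d) (D : ℕ) (hD : 1 ≤ D) :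
    ((NN n d k D).card : ℤ) - (NN n d k (D - 1)).card = ∑ j ∈ Finset.range k, aa n j * gg d n ((D : ℤ) - d * j) := by
  rw [hcard n d k D hn hd, hcard n d k (D - 1) hn hd, ← Finset.sum_sub_distrib]
  refine Finset.sum_congr rfl fun j _ => ?_
  unfold aa gg
  have h1 : ((D - 1 : ℕ) : ℤ) = D - 1 := by omega
  rw [h1, show (D : ℤ) - 1 - d * j = D - d * j - 1 by ring]
  ring

theorem neg_even [CharZero K] (hfex : S_FEX K) (hcard : S_CARD) (hn : 4 ≤ n) (hd : 2 ≤ d) (hk : 2 ≤ k)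
    (he : Even (n * (d - 1))) (h : 2 * (n - 1) ≤ (k - 1) * (d / 2)) : ¬ Tst K n d k := by
  obtain ⟨N, rfl⟩ : ∃ N, n = N + 3 := ⟨n - 3, by omega⟩
  obtain ⟨k', rfl⟩ : ∃ k', k = k' + 2 := ⟨k - 2, by omega⟩
  obtain ⟨e, rfl⟩ : ∃ e, d = e + 1 := ⟨d - 1, by omega⟩
  obtain ⟨C, hC⟩ : ∃ C : ℕ, 2 * C = (N + 1) * e := by
    obtain ⟨c, hc⟩ := he
    rw [Nat.add_sub_cancel] at hc
    refine ⟨c - e, ?_⟩
    have : (N + 3) * e = (N + 1) * e + 2 * e := by ring
    omega
  have hCd : (N + 3 - 2) * (e + 1 - 1) / 2 = C := by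
    rw [show N + 3 - 2 = N + 1 by omega, Nat.add_sub_cancel, ← hC]
    omega
  refine neg_num hfex hn hd (by omega) ?_
  rw [hCd]
  have hdk : 2 ≤ (e + 1) * (k' + 2) := by nlinarith
  have h1 := card_diff (k := k' + 2) hcard (n := N + 3) (by omega) (d := e + 1) (by omega)
    ((e + 1) * (k' + 2) - 1 + C) (by omega)
  have h2 := delta_even (d := e + 1) hd N k' ((e + 1) / 2) (C : ℤ) (by
    push_cast
    rw [add_sub_cancel_right]
    exact_mod_cast hC) (by omega) (by
    have h3 : N + 3 - 1 = N + 2 := by omega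
    have h4 : k' + 2 - 1 = k' + 1 := by omega
    rwa [h3, h4] at h)
  have h3 : (((e + 1) * (k' + 2) - 1 + C : ℕ) : ℤ) = ((e + 1 : ℕ) : ℤ) * (k' + 2) - 1 + C := by
    rw [Nat.cast_add, Nat.cast_sub (by omega)]
    push_cast
    ring
  rw [h3] at h1
  rw [← h1] at h2
  have h4 := sub_nonpos.1 h2
  exact_mod_cast h4

theorem neg_odd [CharZero K] (hfex : S_FEX K) (hcard : S_CARD) (hn : 4 ≤ n) (hd : 2 ≤ d) (hk : 2 ≤ k)
    (h : 8 * (n - 1) ≤ (k - 1) * (d - 2)) : ¬ Tst K n d k := by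
  by_cases he : Even (n * (d - 1))
  · refine neg_even hfex hcard hn hd hk he ?_
    have h1 : d - 2 ≤ 2 * (d / 2) := by omega
    have h2 : (k - 1) * (d - 2) ≤ (k - 1) * (2 * (d / 2)) := Nat.mul_le_mul_left _ h1
    have h3 : (k - 1) * (2 * (d / 2)) = 2 * ((k - 1) * (d / 2)) := by ring
    omega
  obtain ⟨N, rfl⟩ : ∃ N, n = N + 3 := ⟨n - 3, by omega⟩
  obtain ⟨k', rfl⟩ : ∃ k', k = k' + 2 := ⟨k - 2, by omega⟩
  obtain ⟨e, rfl⟩ : ∃ e, d = e + 1 := ⟨d - 1, by omega⟩
  rw [Nat.not_even_iff_odd] at he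
  have hodd : Odd e := by
    rw [Nat.add_sub_cancel] at he
    exact Nat.Odd.of_mul_left (by rwa [mul_comm] at he)
  obtain ⟨C, hC⟩ : ∃ C : ℕ, 2 * C + 1 = (N + 1) * e := by
    obtain ⟨c, hc⟩ := he
    rw [Nat.add_sub_cancel] at hc
    refine ⟨c - e, ?_⟩
    have h1 : (N + 3) * e = (N + 1) * e + 2 * e := by ring
    have h2 : 0 < (N + 1) * e := by
      have : 0 < e := hodd.pos
      positivity
    omega
  have hCd : (N + 3 - 2) * (e + 1 - 1) / 2 = C := by
    rw [show N + 3 - 2 = N + 1 by omega, Nat.add_sub_cancel, ← hC]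
    omega
  have hd4 : 4 ≤ e + 1 := by
    obtain ⟨x, hx⟩ := hodd
    rcases Nat.eq_zero_or_pos x with h0 | h0
    · exfalso
      subst h0
      subst hx
      simp at h
    · omega
  refine neg_num hfex hn hd (by omega) ?_
  rw [hCd]
  have hdk : 2 ≤ (e + 1) * (k' + 2) := by nlinarith
  have h1 := card_diff (k := k' + 2) hcard (n := N + 3) (by omega) (d := e + 1) (by omega)
    ((e + 1) * (k' + 2) - 1 + C) (by omega)
  have h2 := delta_odd (d := e + 1) hd4 N k' ((e - 1) / 2) (C : ℤ) (by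
    push_cast
    rw [add_sub_cancel_right]
    exact_mod_cast hC) (by omega) (by
    have h3 : N + 3 - 1 = N + 2 := by omega
    have h4 : k' + 2 - 1 = k' + 1 := by omega
    rw [h3, h4] at h
    obtain ⟨x, hx⟩ := hodd
    have h5 : e + 1 - 2 = 2 * x := by omega
    have h6 : (e - 1) / 2 = x := by omega
    rw [h5] at h
    rw [h6]
    have h7 : (k' + 1) * (2 * x) = 2 * ((k' + 1) * x) := by ring
    omega)
  have h3 : (((e + 1) * (k' + 2) - 1 + C : ℕ) : ℤ) = ((e + 1 : ℕ) : ℤ) * (k' + 2) - 1 + C := by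
    rw [Nat.cast_add, Nat.cast_sub (by omega)]
    push_cast
    ring
  rw [h3] at h1
  rw [← h1] at h2
  have h4 := sub_nonpos.1 h2
  exact_mod_cast h4

theorem neg_four [CharZero K] (hfex : S_FEX K) (hcard : S_CARD) (hd : 2 ≤ d) (hk : 2 ≤ k)
    (h : 2 * (k + 2) ≤ (k - 1) * (d + 1)) : ¬ Tst K 4 d k := by
  obtain ⟨k', rfl⟩ : ∃ k', k = k' + 2 := ⟨k - 2, by omega⟩
  obtain ⟨e, rfl⟩ : ∃ e, d = e + 1 := ⟨d - 1, by omega⟩
  have hCd : (4 - 2) * (e + 1 - 1) / 2 = e := by omega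
  refine neg_num hfex le_rfl hd (by omega) ?_
  rw [hCd]
  have hdk : 2 ≤ (e + 1) * (k' + 2) := by nlinarith
  have h1 := card_diff (k := k' + 2) hcard (n := 4) (by omega) (d := e + 1) (by omega)
    ((e + 1) * (k' + 2) - 1 + e) (by omega)
  have h2 := delta_four (d := e + 1) hd k' (by
    have h4 : k' + 2 - 1 = k' + 1 := by omega
    rw [h4] at h
    exact h)
  have h3 : (((e + 1) * (k' + 2) - 1 + e : ℕ) : ℤ) = ((e + 1 : ℕ) : ℤ) * (k' + 2) - 1 + (((e + 1 : ℕ) : ℤ) - 1) := by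
    rw [Nat.cast_add, Nat.cast_sub (by omega)]
    push_cast
    ring
  rw [h3] at h1
  rw [← h1] at h2
  have h4 := sub_nonpos.1 h2
  exact_mod_cast h4

/-- the classification for `n = 4` -/
theorem four [CharZero K] (hfex : S_FEX K) (hcard : S_CARD) (hsp : S_SP K) (htwo : S_TWO K) (h23 : S_POS23 K)
    (h32 : S_POS32 K) (h42 : S_POS42 K) (hd : 1 ≤ d) (hk : 1 ≤ k) :
    Tst K 4 d k ↔ (d = 1 ∨ k = 1 ∨ (d = 2 ∧ k = 2) ∨ (d = 2 ∧ k = 3) ∨ (d = 3 ∧ k = 2) ∨ (d = 4 ∧ k = 2)) := by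
  constructor
  · intro hT
    by_contra hcon
    push Not at hcon
    obtain ⟨c1, c2, c3, c4, c5, c6⟩ := hcon
    have hd2 : 2 ≤ d := by omega
    have hk2 : 2 ≤ k := by omega
    by_cases hmain : 2 * (k + 2) ≤ (k - 1) * (d + 1)
    · exact neg_four hfex hcard hd2 hk2 hmain hT
    · obtain ⟨k', rfl⟩ : ∃ k', k = k' + 2 := ⟨k - 2, by omega⟩
      rw [show k' + 2 - 1 = k' + 1 by omega] at hmain
      have hd7 : d ≤ 6 := by
        by_contra h7
        apply hmain
        have : (k' + 1) * 8 ≤ (k' + 1) * (d + 1) := Nat.mul_le_mul_left _ (by omega)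
        omega
      have fin : ∀ i, i + 1 = d * (k' + 2) - 1 + (4 - 2) * (d - 1) / 2 → ¬ InjAt K 4 d (k' + 2) i 1 → False := by
        intro i hi hni
        rcases hT i with h | h
        · exact hni h
        · exact not_surj_top hfex le_rfl (by omega) (by omega) i hi h
      interval_cases d
      · -- `d = 2`
        have hk4 : 4 ≤ k' + 2 := by
          have h1 := c3 rfl
          have h2 := c4 rfl
          omega
        exact fin (2 * (k' + 2) - 1) (by omega) (htwo (k' + 2) hk4)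
      · have h1 := c5 rfl
        have : k' = 1 := by omega
        subst this
        exact fin 9 (by norm_num) hsp.1
      · have h1 := c6 rfl
        exfalso
        omega
      · have : k' = 0 := by omega
        subst this
        exact fin 12 (by norm_num) hsp.2.1
      · have : k' = 0 := by omega
        subst this
        exact fin 15 (by norm_num) hsp.2.2
  · rintro (rfl | rfl | ⟨rfl, rfl⟩ | ⟨rfl, rfl⟩ | ⟨rfl, rfl⟩ | ⟨rfl, rfl⟩)
    · exact tst_of_slp le_rfl (slp_d1 (by norm_num))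
    · exact tst_of_slp hd (slp_k1 hd)
    · exact tst_of_slp (by norm_num) (slp_22 (by norm_num))
    · exact h23
    · exact h32
    · exact h42

end Pool.Agent.V5helper30.WL
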