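import Pool.Agent.V5helper30.WL.Stm

/-!
# Project WL: DUAL
-/

set_option autoImplicit false

open MvPolynomial

namespace Pool.Agent.V5helper30.WL

open Pool.Agent.Helper720.Pow

variable {K : Type*} [Field K] {n : ℕ}

theorem mem_anti {i : ℕ} {m : Fin n →₀ ℕ} : m ∈ (Finset.univ : Finset (Fin n)).finsuppAntidiag i ↔ m.degree = i := by
  rw [Finset.mem_finsuppAntidiag, Finsupp.degree_eq_sum]
  constructor
  · intro h
    exact h.1
  · intro h
    exact ⟨h, Finset.subset_univ _⟩

theorem mem_NN {d k i : ℕ} {m : Fin n →₀ ℕ} : m ∈ NN n d k i ↔ m.degree = i ∧ fl d m < k := by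
  unfold NN
  rw [Finset.mem_filter, mem_anti]

/-- the pairing -/
noncomputable def pg (i : ℕ) (F g : MvPolynomial (Fin n) K) : K :=
  ∑ w ∈ (Finset.univ : Finset (Fin n)).finsuppAntidiag i, (fact w : K) * coeff w F * coeff w g

theorem fact_add (m : Fin n →₀ ℕ) (c : Fin n) : fact (m + Finsupp.single c 1) = fact m * (m c + 1) := by
  classical
  unfold fact
  rw [← Finset.mul_prod_erase Finset.univ _ (Finset.mem_univ c), ← Finset.mul_prod_erase Finset.univ (fun j => (m j).factorial) (Finset.mem_univ c)]
  have h1 : (m + Finsupp.single c 1 : Fin n →₀ ℕ) c = m c + 1 := by simp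
  have h2 : ∏ j ∈ Finset.univ.erase c, ((m + Finsupp.single c 1 : Fin n →₀ ℕ) j).factorial =
      ∏ j ∈ Finset.univ.erase c, (m j).factorial := by
    refine Finset.prod_congr rfl fun j hj => ?_
    have : j ≠ c := Finset.ne_of_mem_erase hj
    rw [Finsupp.add_apply, Finsupp.single_eq_of_ne this, add_zero]
  rw [h1, h2, Nat.factorial_succ]
  ring

/-- the adjoint of the multiplication by the sum of the variables -/
theorem pg_el (i : ℕ) (F p : MvPolynomial (Fin n) K) :
    pg (i + 1) F (el K n * p) = pg i (∑ c, pderiv c F) p := by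
  classical
  unfold pg
  have h1 : ∀ w : Fin n →₀ ℕ, (fact w : K) * coeff w F * coeff w (el K n * p) =
      ∑ c, if w c = 0 then 0 else (fact w : K) * coeff w F * coeff (w - Finsupp.single c 1) p := by
    intro w
    rw [coeff_el_mul, Finset.mul_sum]
    refine Finset.sum_congr rfl fun c _ => ?_
    rw [mul_ite, mul_zero]
  have h2 : ∀ m : Fin n →₀ ℕ, (fact m : K) * coeff m (∑ c, pderiv c F) * coeff m p =
      ∑ c, (fact (m + Finsupp.single c 1) : K) * coeff (m + Finsupp.single c 1) F * coeff m p := by
    intro m
    rw [coeff_sum, Finset.mul_sum, Finset.sum_mul]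
    refine Finset.sum_congr rfl fun c _ => ?_
    rw [coeff_pderiv, fact_add]
    push_cast
    ring
  rw [Finset.sum_congr rfl fun w _ => h1 w, Finset.sum_congr rfl fun m _ => h2 m, Finset.sum_comm,
    Finset.sum_comm (s := (Finset.univ : Finset (Fin n)).finsuppAntidiag i)]
  refine Finset.sum_congr rfl fun c _ => ?_
  rw [← Finset.sum_filter_add_sum_filter_not _ (fun w : Fin n →₀ ℕ => w c = 0)]
  rw [Finset.sum_eq_zero (s := Finset.filter (fun w : Fin n →₀ ℕ => w c = 0) _) (fun w hw => by
    rw [if_pos (Finset.mem_filter.1 hw).2]), zero_add]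
  symm
  refine Finset.sum_bij' (fun m _ => m + Finsupp.single c 1) (fun w _ => w - Finsupp.single c 1) ?_ ?_ ?_ ?_ ?_
  · intro m hm
    rw [mem_anti] at hm
    rw [Finset.mem_filter, mem_anti]
    refine ⟨by rw [map_add, hm, Finsupp.degree_single], ?_⟩
    simp
  · intro w hw
    rw [Finset.mem_filter, mem_anti] at hw
    rw [mem_anti]
    have := degree_sub_single hw.2
    omega
  · intro m _
    simp
  · intro w hw
    rw [Finset.mem_filter] at hw
    apply tsub_add_cancel_of_le
    rw [Finsupp.single_le_iff]
    omega
  · intro m _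
    have h3 : (m + Finsupp.single c 1 : Fin n →₀ ℕ) c ≠ 0 := by simp
    rw [if_neg h3]
    simp

theorem dual [CharZero K] : S_DUAL K := by
  classical
  intro n d k i r F hd hli hhom hder hfl
  -- the pairing vanishes on the image and on the ideal
  have hz : ∀ t p, pg (i + 1) (F t) (el K n * p) = 0 := by
    intro t p
    rw [pg_el, hder]
    unfold pg
    simp
  refine ⟨fun hinj => ?_, fun hr hsurj => ?_⟩
  · -- the matrix of the functionals
    let M : Matrix (Fin r) (NN n d k (i + 1)) K := fun t w => (fact w.1 : K) * coeff w.1 (F t)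
    have hM : LinearIndependent K M := by
      rw [Fintype.linearIndependent_iff] at hli ⊢
      intro s hs t
      refine hli s ?_ t
      ext w
      rw [coeff_zero, coeff_sum]
      by_cases hw : w ∈ NN n d k (i + 1)
      · have h1 := congrFun hs ⟨w, hw⟩
        rw [Finset.sum_apply] at h1
        simp only [Pi.smul_apply, smul_eq_mul, Pi.zero_apply] at h1
        have h2 : (fact w : K) * ∑ x, coeff w (s x • F x) = 0 := by
          rw [← h1, Finset.mul_sum]
          refine Finset.sum_congr rfl fun x _ => ?_
          rw [coeff_smul, smul_eq_mul]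
          show _ = s x * ((fact w : K) * coeff w (F x))
          ring
        exact (mul_eq_zero.1 h2).resolve_left (Nat.cast_ne_zero.2 (fact_ne_zero w))
      · refine Finset.sum_eq_zero fun x _ => ?_
        rw [coeff_smul, smul_eq_mul]
        have h1 : coeff w (F x) = 0 := by
          by_contra hne
          exact hw (mem_NN.2 ⟨degree_of_coeff (hhom x) hne, hfl x w hne⟩)
        rw [h1, mul_zero]
    have hrank : M.rank = r := by
      rw [hM.rank_matrix, Fintype.card_fin]
    -- the multiplication
    let ext' : (NN n d k i → K) → MvPolynomial (Fin n) K := fun f => ∑ m : NN n d k i, monomial m.1 (f m)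
    have hext : ∀ f (m : Fin n →₀ ℕ), coeff m (ext' f) = if h : m ∈ NN n d k i then f ⟨m, h⟩ else 0 := by
      intro f m
      show coeff m (∑ m' : NN n d k i, monomial m'.1 (f m')) = _
      rw [coeff_sum]
      split_ifs with h
      · rw [Finset.sum_eq_single (⟨m, h⟩ : NN n d k i)]
        · rw [coeff_monomial, if_pos rfl]
        · intro b _ hb
          rw [coeff_monomial, if_neg]
          intro hbm
          exact hb (Subtype.ext hbm)
        · intro h'
          exact absurd (Finset.mem_univ _) h'
      · refine Finset.sum_eq_zero fun b _ => ?_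
        rw [coeff_monomial, if_neg]
        intro hbm
        exact h (hbm ▸ b.2)
    have hadd : ∀ f g, ext' (f + g) = ext' f + ext' g := by
      intro f g
      show ∑ m : NN n d k i, monomial m.1 ((f + g) m) = _
      rw [← Finset.sum_add_distrib]
      refine Finset.sum_congr rfl fun m _ => ?_
      rw [Pi.add_apply, map_add]
    have hsm : ∀ (a : K) f, ext' (a • f) = a • ext' f := by
      intro a f
      show ∑ m : NN n d k i, monomial m.1 ((a • f) m) = _
      rw [Finset.smul_sum]
      refine Finset.sum_congr rfl fun m _ => ?_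
      rw [Pi.smul_apply, smul_monomial]
    let μ : (NN n d k i → K) →ₗ[K] (NN n d k (i + 1) → K) :=
      { toFun := fun f w => coeff w.1 (el K n * ext' f)
        map_add' := fun f g => by
          funext w
          rw [hadd, mul_add, coeff_add]
          rfl
        map_smul' := fun a f => by
          funext w
          rw [hsm, mul_smul_comm, coeff_smul]
          rfl }
    have hμ : Function.Injective μ := by
      rw [← LinearMap.ker_eq_bot, LinearMap.ker_eq_bot']
      intro f hf
      have hhomf : (ext' f).IsHomogeneous i := by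
        refine MvPolynomial.IsHomogeneous.sum _ _ _ fun m _ => ?_
        exact isHomogeneous_monomial _ (mem_NN.1 m.2).1
      have h1 : el K n ^ 1 * ext' f ∈ powIdeal K n d k := by
        have hh : (el K n ^ 1 * ext' f).IsHomogeneous (i + 1) := by
          have := el_hom (K := K) (n := n) |>.mul hhomf
          rwa [add_comm, ← pow_one (el K n)] at this
        refine mem_of_coeff hd hh fun w hw hflw => ?_
        have h2 := congrFun hf ⟨w, mem_NN.2 ⟨hw, hflw⟩⟩
        rw [pow_one]
        exact h2
      have h2 := hinj (ext' f) hhomf h1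
      rw [mem_powIdeal hd] at h2
      funext m
      have h3 := h2 m.1 (mem_NN.1 m.2).2
      rw [hext, dif_pos m.2] at h3
      exact h3
    have hle : LinearMap.range μ ≤ LinearMap.ker M.mulVecLin := by
      rintro _ ⟨f, rfl⟩
      rw [LinearMap.mem_ker]
      funext t
      rw [Matrix.mulVecLin_apply, Pi.zero_apply]
      show ∑ w : NN n d k (i + 1), ((fact w.1 : K) * coeff w.1 (F t)) * coeff w.1 (el K n * ext' f) = 0
      rw [← hz t (ext' f)]
      unfold pg
      rw [Finset.sum_coe_sort (NN n d k (i + 1)) (fun w => ((fact w : K) * coeff w (F t)) * coeff w (el K n * ext' f))]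
      refine Finset.sum_subset (fun w hw => mem_anti.2 (mem_NN.1 hw).1) fun w _ hw => ?_
      have h1 : coeff w (F t) = 0 := by
        by_contra hne
        exact hw (mem_NN.2 ⟨degree_of_coeff (hhom t) hne, hfl t w hne⟩)
      rw [h1, mul_zero, zero_mul]
    have h1 : Module.finrank K (LinearMap.range μ) = (NN n d k i).card := by
      rw [LinearMap.finrank_range_of_inj hμ, Module.finrank_fintype_fun_eq_card, Fintype.card_coe]
    have h2 := LinearMap.finrank_range_add_finrank_ker M.mulVecLin
    rw [Module.finrank_fintype_fun_eq_card, Fintype.card_coe] at h2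
    have h3 : Module.finrank K (LinearMap.range M.mulVecLin) = r := hrank
    have h4 := Submodule.finrank_mono hle
    omega
  · obtain ⟨w, hw⟩ : ∃ w, coeff w (F ⟨0, hr⟩) ≠ 0 := by
      by_contra hcon
      push Not at hcon
      exact hli.ne_zero ⟨0, hr⟩ (by ext w; rw [hcon w, coeff_zero])
    have hwd := degree_of_coeff (hhom _) hw
    obtain ⟨f, hf, hg⟩ := hsurj (monomial w 1) (isHomogeneous_monomial _ hwd)
    rw [pow_one, mem_powIdeal hd] at hg
    have h1 : pg (i + 1) (F ⟨0, hr⟩) (monomial w 1) = fact w * coeff w (F ⟨0, hr⟩) := by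
      unfold pg
      rw [Finset.sum_eq_single w]
      · rw [coeff_monomial, if_pos rfl, mul_one]
      · intro b _ hb
        rw [coeff_monomial, if_neg hb.symm, mul_zero]
      · intro h
        exact absurd (mem_anti.2 hwd) h
    have h2 : pg (i + 1) (F ⟨0, hr⟩) (monomial w 1) = pg (i + 1) (F ⟨0, hr⟩) (el K n * f) := by
      unfold pg
      refine Finset.sum_congr rfl fun v _ => ?_
      by_cases hv : coeff v (F ⟨0, hr⟩) = 0
      · rw [hv, mul_zero, zero_mul, zero_mul]
      · have h3 := hg v (hfl _ v hv)
        rw [coeff_sub, sub_eq_zero] at h3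
        rw [h3]
    rw [hz, h1] at h2
    exact mul_ne_zero (Nat.cast_ne_zero.2 (fact_ne_zero w)) hw h2

end Pool.Agent.V5helper30.WL
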