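import Pool.Agent.V5helper30.WL.Num2

/-!
# Project WL: the case `d = 2`, `n` odd
-/

set_option autoImplicit false

namespace Pool.Agent.V5helper30.WL

theorem hh_binom (n : ℕ) : ∀ m : ℕ, hh 2 n m = n.choose m := by
  induction n with
  | zero =>
    intro m
    simp only [hh]
    cases m with
    | zero => simp
    | succ m =>
      rw [if_neg (by positivity)]
      simp
  | succ n ih =>
    intro m
    rw [hh_succ, Finset.sum_range_succ, Finset.sum_range_one]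
    cases m with
    | zero =>
      have h1 := ih 0
      rw [Nat.cast_zero] at h1
      simp only [Nat.cast_zero, Nat.cast_one, sub_zero]
      rw [h1, hh_neg n _ (by norm_num)]
      simp
    | succ m =>
      have h1 := ih (m + 1)
      have h2 := ih m
      simp only [Nat.cast_zero, Nat.cast_one, sub_zero]
      rw [h1, show ((m + 1 : ℕ) : ℤ) - 1 = m by push_cast; ring, h2,
        Nat.choose_succ_succ]
      push_cast
      ring

theorem sum_le3 {d : ℕ} (hd : 1 ≤ d) (n k : ℕ) (D : ℤ) (h1 : n * (d - 1) + 1 ≤ 2 * (D - d * k)) :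
    ∑ j ∈ Finset.range (k + 3), aa n j * gg d n (D - d * j) ≤
      aa n (k + 2) * gg d n (D - d * (k + 2)) + aa n (k + 1) * gg d n (D - d * (k + 1)) +
        aa n k * gg d n (D - d * k) := by
  rw [Finset.sum_range_succ, Finset.sum_range_succ, Finset.sum_range_succ]
  have h2 : ∑ j ∈ Finset.range k, aa n j * gg d n (D - d * j) ≤ 0 := by
    refine Finset.sum_nonpos fun j hj => ?_
    rw [Finset.mem_range] at hj
    have h3 : (d : ℤ) * j ≤ d * k := by
      have : (j : ℤ) ≤ k := by exact_mod_cast hj.le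
      exact mul_le_mul_of_nonneg_left this (by positivity)
    exact mul_nonpos_of_nonneg_of_nonpos (aa_nonneg n j) (gg_nonpos hd n _ (by linarith))
  push_cast
  linarith

/-- the binomial identity -/
theorem gg_two_ratio (m : ℕ) : ((m : ℤ) + 5) * (m + 6) * gg 2 (2 * m + 5) m =
    3 * (m + 2) * (m + 1) * gg 2 (2 * m + 5) (m + 2) := by
  have e2 := Nat.choose_succ_right_eq (2 * m + 5) (m + 1)
  have e1 := Nat.choose_succ_right_eq (2 * m + 5) m
  rw [show 2 * m + 5 - (m + 1) = m + 4 by omega, show m + 1 + 1 = m + 2 by ring] at e2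
  rw [show 2 * m + 5 - m = m + 5 by omega] at e1
  have f2 : ((2 * m + 5).choose (m + 2) : ℤ) * (m + 2) = (2 * m + 5).choose (m + 1) * (m + 4) := by exact_mod_cast e2
  have f1 : ((2 * m + 5).choose (m + 1) : ℤ) * (m + 1) = (2 * m + 5).choose m * (m + 5) := by exact_mod_cast e1
  -- the last one
  have f0 : ∃ z : ℤ, hh 2 (2 * m + 5) ((m : ℤ) - 1) = z ∧ z * (m + 6) = (2 * m + 5).choose m * m := by
    cases m with
    | zero =>
      refine ⟨0, ?_, by simp⟩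
      exact hh_neg _ _ (by norm_num)
    | succ m =>
      have e0 := Nat.choose_succ_right_eq (2 * (m + 1) + 5) m
      rw [show 2 * (m + 1) + 5 - m = m + 7 by omega] at e0
      have h1 := hh_binom (2 * (m + 1) + 5) m
      refine ⟨((2 * (m + 1) + 5).choose m : ℕ), ?_, ?_⟩
      · rw [← h1]
        congr 1
        push_cast
        ring
      · have e0' : ((2 * (m + 1) + 5).choose (m + 1) : ℤ) * (m + 1) = (2 * (m + 1) + 5).choose m * (m + 7) := by
          exact_mod_cast e0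
        push_cast
        linarith
  obtain ⟨z, hz, f0⟩ := f0
  have h0 := hh_binom (2 * m + 5) m
  have h1 := hh_binom (2 * m + 5) (m + 1)
  have h2 := hh_binom (2 * m + 5) (m + 2)
  unfold gg
  rw [h0, hz]
  have h2' : hh 2 (2 * m + 5) ((m : ℤ) + 2) = (2 * m + 5).choose (m + 2) := by rw [← h2]; norm_num
  have h1' : hh 2 (2 * m + 5) ((m : ℤ) + 2 - 1) = (2 * m + 5).choose (m + 1) := by
    rw [← h1]
    congr 1
    push_cast
    ring
  rw [h2', h1']
  obtain ⟨b0, hb0⟩ : ∃ b0 : ℤ, b0 = ((2 * m + 5).choose m : ℕ) := ⟨_, rfl⟩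
  obtain ⟨b1, hb1⟩ : ∃ b1 : ℤ, b1 = ((2 * m + 5).choose (m + 1) : ℕ) := ⟨_, rfl⟩
  obtain ⟨b2, hb2⟩ : ∃ b2 : ℤ, b2 = ((2 * m + 5).choose (m + 2) : ℕ) := ⟨_, rfl⟩
  rw [← hb0] at f0 f1 ⊢
  rw [← hb1] at f1 f2 ⊢
  rw [← hb2] at f2 ⊢
  -- (m+5)(m+6)(b0 - z) = (m+5) * 6 * b0 = 6 (m+1) b1;  3 (m+2)(m+1)(b2 - b1) = 3 (m+1) * 2 * b1
  have g1 : ((m : ℤ) + 5) * (m + 6) * (b0 - z) = 6 * (m + 1) * b1 := by
    have : ((m : ℤ) + 5) * (m + 6) * (b0 - z) = (m + 5) * ((m + 6) * b0 - z * (m + 6)) := by ring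
    rw [this, f0]
    linear_combination (-6) * f1
  have g2 : 3 * ((m : ℤ) + 2) * (m + 1) * (b2 - b1) = 6 * (m + 1) * b1 := by
    linear_combination (3 * ((m : ℤ) + 1)) * f2
  rw [g1, g2]

/-- `n = 2 m + 5`, `k = k' + 3` -/
theorem delta_bin (m k : ℕ)
    (hk : 2 * (m + 5) * (m + 6) * (2 * m + k + 5) ≤ 3 * (m + 1) * ((k + 2) * (k + 1))) :
    ∑ j ∈ Finset.range (k + 3), aa (2 * m + 5) j * gg 2 (2 * m + 5) (2 * (k + 3) + (m + 2) - 2 - 2 * j) ≤ 0 := by
  have h0 := sum_le3 (d := 2) (by norm_num) (2 * m + 5) k (2 * (k + 3) + (m + 2) - 2) (by push_cast; linarith)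
  push_cast at h0
  refine h0.trans ?_
  rw [show (2 : ℤ) * (k + 3) + (m + 2) - 2 - 2 * (k + 2) = m + 2 by ring,
    show (2 : ℤ) * (k + 3) + (m + 2) - 2 - 2 * (k + 1) = m + 4 by ring,
    show (2 : ℤ) * (k + 3) + (m + 2) - 2 - 2 * k = m + 6 by ring]
  have s1 := gg_symm (d := 2) (by norm_num) (2 * m + 5) ((m : ℤ) + 2)
  have s2 := gg_symm (d := 2) (by norm_num) (2 * m + 5) (m : ℤ)
  push_cast at s1 s2
  rw [show (2 * (m : ℤ) + 5) * 1 + 1 - (m + 2) = m + 4 by ring] at s1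
  rw [show (2 * (m : ℤ) + 5) * 1 + 1 - m = m + 6 by ring] at s2
  rw [s1, s2]
  have hr := gg_two_ratio m
  have a1 := aa_step (2 * m + 5) (k + 1) (by omega)
  have a0 := aa_step (2 * m + 5) k (by omega)
  have ann := aa_nonneg (2 * m + 5) k
  have g0 : 0 ≤ gg 2 (2 * m + 5) ((m : ℤ) + 2) := gg_nonneg (by norm_num) _ _ (by push_cast; linarith)
  have hkz : (2 : ℤ) * (m + 5) * (m + 6) * (2 * m + k + 5) ≤ 3 * (m + 1) * ((k + 2) * (k + 1)) := by exact_mod_cast hk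
  obtain ⟨x, hx⟩ : ∃ x, x = gg 2 (2 * m + 5) ((m : ℤ) + 2) := ⟨_, rfl⟩
  obtain ⟨y, hy⟩ : ∃ y, y = gg 2 (2 * m + 5) (m : ℤ) := ⟨_, rfl⟩
  obtain ⟨p, hp⟩ : ∃ p, p = aa (2 * m + 5) k := ⟨_, rfl⟩
  obtain ⟨q, hq⟩ : ∃ q, q = aa (2 * m + 5) (k + 1) := ⟨_, rfl⟩
  obtain ⟨r, hr'⟩ : ∃ r, r = aa (2 * m + 5) (k + 2) := ⟨_, rfl⟩
  rw [← hx, ← hy] at hr
  rw [← hp, ← hq] at a0
  rw [← hp] at ann
  rw [show k + 1 + 1 = k + 2 by ring, ← hq, ← hr'] at a1
  rw [← hx] at g0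
  rw [← hx, ← hy, ← hp, ← hq, ← hr']
  push_cast at a0 a1
  -- multiply by (k+2)(k+1)(m+5)(m+6)
  have key : ((k : ℤ) + 2) * (k + 1) * ((m + 5) * (m + 6)) * (r * x + q * -x + p * -y) =
      p * x * (m + 2) * (2 * (m + 5) * (m + 6) * (2 * m + k + 5) - 3 * (m + 1) * ((k + 2) * (k + 1))) := by
    have e1 : ((k : ℤ) + 2) * r = (2 * m + 5 + (k + 1)) * q := by linarith
    have e2 : ((k : ℤ) + 1) * q = (2 * m + 5 + k) * p := by linarith
    linear_combination ((k : ℤ) + 1) * ((m + 5) * (m + 6)) * x * e1 + (2 * m + 4) * ((m + 5) * (m + 6)) * x * e2 -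
      ((k : ℤ) + 2) * (k + 1) * p * hr
  have hm0 : (0 : ℤ) ≤ m := by positivity
  have hk0 : (0 : ℤ) ≤ k := by positivity
  have hneg : ((k : ℤ) + 2) * (k + 1) * ((m + 5) * (m + 6)) * (r * x + q * -x + p * -y) ≤ 0 := by
    rw [key]
    exact mul_nonpos_of_nonneg_of_nonpos (mul_nonneg (mul_nonneg ann g0) (by linarith)) (by linarith)
  by_contra hc
  push Not at hc
  have hpos : 0 < ((k : ℤ) + 2) * (k + 1) * ((m + 5) * (m + 6)) := by positivity
  have := mul_pos hpos hc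
  linarith

end Pool.Agent.V5helper30.WL
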