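import Pool.Agent.V5helper30.WL.Asm
import Pool.Agent.V5helper30.WL.Num3
import Pool.Agent.V5helper6.WL.FEX
import Pool.Agent.V5helper56.WL.TWO
import Pool.Agent.V5helper53.WL.CARD
import Pool.Agent.V5helper95.WL.SP

/-!
# Project WL: the final steps
-/

set_option autoImplicit false

open MvPolynomial

namespace Pool.Agent.V5helper30.WL

open Pool.Agent.Helper720.Pow

variable {K : Type*} [Field K] {n d k : ℕ}

/-- `d = 2`, `n` odd -/
theorem neg_bin [CharZero K] (hn : 4 ≤ n) (ho : Odd n) (hk : n + 20 ≤ k) : ¬ Tst K n 2 k := by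
  obtain ⟨m, hm⟩ : ∃ m, n = 2 * m + 5 := by
    obtain ⟨x, hx⟩ := ho
    exact ⟨x - 2, by omega⟩
  subst hm
  obtain ⟨k', rfl⟩ : ∃ k', k = k' + 3 := ⟨k - 3, by omega⟩
  have hCd : (2 * m + 5 - 2) * (2 - 1) / 2 = m + 1 := by omega
  refine neg_num (Pool.Agent.V5helper6.WL.fex K) hn le_rfl (by omega) ?_
  rw [hCd]
  have h1 := card_diff (k := k' + 3) Pool.Agent.V5helper53.WL.t_CARD (n := 2 * m + 5) (by omega) (d := 2) (by omega)
    (2 * (k' + 3) - 1 + (m + 1)) (by omega)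
  have h2 := delta_bin m k' (by
    obtain ⟨t, rfl⟩ : ∃ t, k' = 2 * m + 22 + t := ⟨k' - (2 * m + 22), by omega⟩
    zify
    have hm0 : (0 : ℤ) ≤ m := by positivity
    have ht0 : (0 : ℤ) ≤ t := by positivity
    nlinarith [mul_nonneg hm0 hm0, mul_nonneg hm0 ht0, mul_nonneg ht0 ht0, mul_nonneg (mul_nonneg hm0 hm0) hm0,
      mul_nonneg (mul_nonneg hm0 hm0) ht0, mul_nonneg (mul_nonneg hm0 ht0) ht0])
  have h3 : ((2 * (k' + 3) - 1 + (m + 1) : ℕ) : ℤ) = 2 * (k' + 3) + (m + 2) - 2 := by omega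
  rw [h3] at h1
  push_cast at h1
  rw [← h1] at h2
  have h4 := sub_nonpos.1 h2
  exact_mod_cast h4

/-- large `k` -/
theorem neg_large [CharZero K] (hn : 4 ≤ n) (hd : 2 ≤ d) (hk : 8 * n ≤ k + 7) : ¬ Tst K n d k := by
  have h0 : 8 * (n - 1) ≤ k - 1 := by omega
  rcases Nat.lt_or_ge d 3 with h3 | h3
  · have hd2 : d = 2 := by omega
    subst hd2
    rcases Nat.even_or_odd n with he | ho
    · refine neg_even (Pool.Agent.V5helper6.WL.fex K) Pool.Agent.V5helper53.WL.t_CARD hn le_rfl (by omega) ?_ (by omega)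
      simpa using he
    · exact neg_bin hn ho (by obtain ⟨x, hx⟩ := ho; omega)
  · refine neg_odd (Pool.Agent.V5helper6.WL.fex K) Pool.Agent.V5helper53.WL.t_CARD hn hd (by omega) ?_
    calc 8 * (n - 1) ≤ (k - 1) * 1 := by omega
      _ ≤ (k - 1) * (d - 2) := Nat.mul_le_mul_left _ (by omega)

end Pool.Agent.V5helper30.WL
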