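import Mathlib

/-!
# Project WL: the coefficients of `(1 + t + … + t^(d-1))^n`
-/

set_option autoImplicit false

namespace Pool.Agent.V5helper30.WL

/-- the number of `(ρ_1, …, ρ_n) ∈ [0, d - 1]^n` with sum `m` -/
def hh (d : ℕ) : ℕ → ℤ → ℤ
  | 0, m => if m = 0 then 1 else 0
  | n + 1, m => ∑ a ∈ Finset.range d, hh d n (m - a)

end Pool.Agent.V5helper30.WL
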