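import Pool.Agent.V5helper30.WL.HH

/-!
# Project WL: inequalities for the coefficients of `(1 + t + … + t^(d-1))^n`
-/

set_option autoImplicit false

namespace Pool.Agent.V5helper30.WL

variable {d : ℕ}

/-- the difference -/
def gg (d n : ℕ) (m : ℤ) : ℤ := hh d n m - hh d n (m - 1)

theorem hh_succ (n : ℕ) (m : ℤ) : hh d (n + 1) m = ∑ a ∈ Finset.range d, hh d n (m - a) := rfl

theorem gg_succ (n : ℕ) (m : ℤ) : gg d (n + 1) m = hh d n m - hh d n (m - d) := by
  unfold gg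
  rw [hh_succ, hh_succ, ← Finset.sum_sub_distrib]
  have h1 : ∀ e : ℕ, ∑ a ∈ Finset.range e, (hh d n (m - a) - hh d n (m - 1 - a)) = hh d n m - hh d n (m - e) := by
    intro e
    induction e with
    | zero => simp
    | succ e ih =>
      rw [Finset.sum_range_succ, ih]
      push_cast
      rw [show m - 1 - (e : ℤ) = m - (e + 1) by ring]
      ring
  exact h1 d

theorem hh_symm (hd : 1 ≤ d) (n : ℕ) : ∀ m : ℤ, hh d n (n * (d - 1) - m) = hh d n m := by
  have _ := hd
  induction n with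
  | zero =>
    intro m
    simp [hh]
  | succ n ih =>
    intro m
    rw [hh_succ, hh_succ, ← Finset.sum_range_reflect (fun a => hh d n (m - a))]
    refine Finset.sum_congr rfl fun a ha => ?_
    rw [Finset.mem_range] at ha
    rw [← ih]
    congr 1
    have h1 : ((d - 1 - a : ℕ) : ℤ) = d - 1 - a := by omega
    rw [h1]
    push_cast
    ring

theorem gg_symm (hd : 1 ≤ d) (n : ℕ) (m : ℤ) : gg d n (n * (d - 1) + 1 - m) = - gg d n m := by
  unfold gg
  have h1 := hh_symm hd n (m - 1)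
  have h2 := hh_symm hd n m
  rw [show (n : ℤ) * (d - 1) + 1 - m = n * (d - 1) - (m - 1) by ring, h1,
    show (n : ℤ) * (d - 1) - (m - 1) - 1 = n * (d - 1) - m by ring, h2]
  ring

theorem hh_mono_of {n : ℕ} (h : ∀ m : ℤ, 2 * m ≤ n * (d - 1) + 1 → 0 ≤ gg d n m) (a : ℤ) (j : ℕ)
    (hb : 2 * (a + j) ≤ n * (d - 1) + 1) : hh d n a ≤ hh d n (a + j) := by
  induction j with
  | zero => simp
  | succ j ih =>
    have h1 := ih (by push_cast at hb; linarith)
    have h2 := h (a + (j + 1 : ℕ)) hb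
    unfold gg at h2
    rw [show a + ((j + 1 : ℕ) : ℤ) - 1 = a + j by push_cast; ring] at h2
    linarith

/-- unimodality -/
theorem gg_nonneg (hd : 1 ≤ d) (n : ℕ) : ∀ m : ℤ, 2 * m ≤ n * (d - 1) + 1 → 0 ≤ gg d n m := by
  induction n with
  | zero =>
    intro m hm
    have h1 : m ≤ 0 := by push_cast at hm; omega
    simp only [gg, hh]
    rw [if_neg (show ¬ (m - 1 = 0) by omega)]
    split_ifs <;> norm_num
  | succ n ih =>
    intro m hm
    rw [gg_succ, sub_nonneg]
    push_cast at hm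
    by_cases h1 : 2 * m ≤ n * (d - 1) + 1
    · have h2 := hh_mono_of ih (m - d) d (by rw [sub_add_cancel]; exact h1)
      rwa [sub_add_cancel] at h2
    · push Not at h1
      rw [← hh_symm hd n m]
      obtain ⟨j, hj⟩ : ∃ j : ℕ, (n : ℤ) * (d - 1) - m = (m - d) + j :=
        ⟨((n : ℤ) * (d - 1) - m - (m - d)).toNat, by
          rw [Int.toNat_of_nonneg]
          · ring
          · linarith [hm]⟩
      rw [hj]
      refine hh_mono_of ih (m - d) j ?_
      rw [← hj]
      linarith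

theorem gg_nonpos (hd : 1 ≤ d) (n : ℕ) (m : ℤ) (hm : n * (d - 1) + 1 ≤ 2 * m) : gg d n m ≤ 0 := by
  have h1 := gg_nonneg hd n (n * (d - 1) + 1 - m) (by linarith)
  rw [gg_symm hd] at h1
  linarith

theorem hh_mono (hd : 1 ≤ d) (n : ℕ) {a b : ℤ} (hab : a ≤ b) (hb : 2 * b ≤ n * (d - 1) + 1) : hh d n a ≤ hh d n b := by
  obtain ⟨j, hj⟩ : ∃ j : ℕ, b = a + j := ⟨(b - a).toNat, by rw [Int.toNat_of_nonneg (by linarith)]; ring⟩
  rw [hj] at hb ⊢
  exact hh_mono_of (gg_nonneg hd n) a j hb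

/-- concavity near the center -/
theorem gg_concave (hd : 1 ≤ d) (N : ℕ) (m : ℤ) (h1 : N * (d - 1) + 1 ≤ 2 * m) (h2 : 2 * (m - d) ≤ N * (d - 1) + 1) :
    gg d (N + 1) m ≤ gg d (N + 1) (m - 1) := by
  have h3 := gg_nonpos hd N m h1
  have h4 := gg_nonneg hd N (m - d) h2
  rw [gg_succ, gg_succ]
  unfold gg at h3 h4
  rw [show m - 1 - (d : ℤ) = m - d - 1 by ring]
  linarith

/-- Sums of a concave decreasing sequence. -/
theorem sum_concave (w : ℕ → ℤ) (P : ℕ) (hv : ∀ i j, i ≤ j → j ≤ P → w i - w (i + 1) ≤ w j - w (j + 1))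
    (hP : 0 ≤ w (P + 1)) : (P + 2) * w 0 ≤ 2 * ∑ a ∈ Finset.range (P + 1), w a := by
  have tel : ∀ s e : ℕ, ∑ i ∈ Finset.range e, (w (s + i) - w (s + i + 1)) = w s - w (s + e) := by
    intro s e
    induction e with
    | zero => simp
    | succ e ih =>
      rw [Finset.sum_range_succ, ih]
      rw [show s + (e + 1) = s + e + 1 by ring]
      ring
  have key : ∀ a ≤ P + 1, w 0 + w (P + 1) ≤ w a + w (P + 1 - a) := by
    intro a ha
    have h1 := tel 0 a
    have h2 := tel (P + 1 - a) a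
    rw [Nat.zero_add] at h1
    rw [show P + 1 - a + a = P + 1 by omega] at h2
    have h3 : ∑ i ∈ Finset.range a, (w (0 + i) - w (0 + i + 1)) ≤
        ∑ i ∈ Finset.range a, (w (P + 1 - a + i) - w (P + 1 - a + i + 1)) := by
      refine Finset.sum_le_sum fun i hi => ?_
      rw [Finset.mem_range] at hi
      exact hv _ _ (by omega) (by omega)
    linarith
  have h1 : ∑ a ∈ Finset.range (P + 2), w (P + 2 - 1 - a) = ∑ a ∈ Finset.range (P + 2), w a :=
    Finset.sum_range_reflect w (P + 2)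
  have h2 : ∑ a ∈ Finset.range (P + 2), (w 0 + w (P + 1)) ≤ ∑ a ∈ Finset.range (P + 2), (w a + w (P + 2 - 1 - a)) := by
    refine Finset.sum_le_sum fun a ha => ?_
    rw [Finset.mem_range] at ha
    rw [show P + 2 - 1 - a = P + 1 - a by omega]
    exact key a (by omega)
  rw [Finset.sum_const, Finset.card_range, Finset.sum_add_distrib, h1, Finset.sum_range_succ] at h2
  rw [nsmul_eq_mul] at h2
  push_cast at h2
  nlinarith [mul_nonneg (by positivity : (0 : ℤ) ≤ P) hP]

/-- two steps -/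
theorem gg_two (N : ℕ) (m : ℤ) : gg d (N + 2) m = ∑ a ∈ Finset.range d, (hh d N (m - a) - hh d N (m - a - d)) := by
  rw [gg_succ, hh_succ, hh_succ, ← Finset.sum_sub_distrib]
  refine Finset.sum_congr rfl fun a _ => ?_
  rw [show m - (d : ℤ) - a = m - a - d by ring]

/-- the sequence `h(C - a) - h(C - d)` -/
def ww (d N : ℕ) (C : ℤ) (a : ℕ) : ℤ := hh d N (C - a) - hh d N (C - d)

theorem ww_nonneg (hd : 1 ≤ d) (N : ℕ) (C : ℤ) (hC : 2 * C ≤ N * (d - 1)) (a : ℕ) (ha : a ≤ d) : 0 ≤ ww d N C a := by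
  unfold ww
  have h1 : hh d N (C - d) ≤ hh d N (C - a) := hh_mono hd N (by omega) (by
    have : (0 : ℤ) ≤ a := by positivity
    linarith)
  linarith

theorem ww_step (hd : 1 ≤ d) (N : ℕ) (C : ℤ) (P : ℕ) (hP : N * (d - 1) + 1 ≤ 2 * C - 2 * P + 2)
    (hC : 2 * C ≤ (N + 1) * (d - 1)) (i : ℕ) (hi : i + 1 ≤ P) :
    ww d (N + 1) C i - ww d (N + 1) C (i + 1) ≤ ww d (N + 1) C (i + 1) - ww d (N + 1) C (i + 2) := by
  have h0 : (i : ℤ) + 1 ≤ P := by exact_mod_cast hi
  have hi0 : (0 : ℤ) ≤ i := by positivity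
  have hd1 : (1 : ℤ) ≤ d := by exact_mod_cast hd
  have h1 := gg_concave hd N (C - i) (by linarith) (by linarith)
  unfold ww
  unfold gg at h1
  push_cast
  rw [show C - ((i : ℤ) + 1) = C - i - 1 by ring, show C - ((i : ℤ) + 2) = C - i - 1 - 1 by ring]
  linarith

theorem ww_conc (hd : 1 ≤ d) (N : ℕ) (C : ℤ) (P : ℕ) (hP : N * (d - 1) + 1 ≤ 2 * C - 2 * P + 2)
    (hC : 2 * C ≤ (N + 1) * (d - 1)) (i : ℕ) : ∀ e : ℕ, i + e ≤ P →
    ww d (N + 1) C i - ww d (N + 1) C (i + 1) ≤ ww d (N + 1) C (i + e) - ww d (N + 1) C (i + e + 1) := by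
  intro e
  induction e with
  | zero => intro _; exact le_refl _
  | succ e ih =>
    intro he
    have h1 := ih (by omega)
    have h2 := ww_step hd N C P hP hC (i + e) (by omega)
    have h3 : i + (e + 1) = i + e + 1 := by ring
    rw [h3]
    exact h1.trans h2

theorem ww_sum (hd : 1 ≤ d) (N : ℕ) (C : ℤ) (P : ℕ) (hP : N * (d - 1) + 1 ≤ 2 * C - 2 * P + 2)
    (hC : 2 * C ≤ (N + 1) * (d - 1)) (hPd : P + 1 ≤ d) :
    (P + 2) * ww d (N + 1) C 0 ≤ 2 * ∑ a ∈ Finset.range (P + 1), ww d (N + 1) C a := by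
  refine sum_concave _ P (fun i j hij hj => ?_) ?_
  · obtain ⟨e, rfl⟩ := Nat.exists_eq_add_of_le hij
    exact ww_conc hd N C P hP hC i e hj
  · refine ww_nonneg hd (N + 1) C ?_ _ hPd
    push_cast
    exact hC

/-- the even case -/
theorem main_even (hd : 2 ≤ d) (N : ℕ) (C : ℤ) (P : ℕ) (hC : 2 * C = (N + 1) * (d - 1)) (hP : 2 * P ≤ d) :
    (P + 2) * gg d (N + 3) (C + (d - 1)) ≤ 2 * gg d (N + 3) C := by
  have hd1 : 1 ≤ d := by omega
  have hPz : (2 : ℤ) * P ≤ d := by exact_mod_cast hP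
  have hdz : (2 : ℤ) ≤ d := by exact_mod_cast hd
  have hw := ww_sum hd1 N C P (by linarith) hC.le (by omega)
  have hnn : ∀ a ∈ Finset.range d, 0 ≤ ww d (N + 1) C a := by
    intro a ha
    rw [Finset.mem_range] at ha
    refine ww_nonneg hd1 (N + 1) C ?_ a ha.le
    push_cast
    exact hC.le
  -- the upper bound
  have h1 : gg d (N + 3) (C + (d - 1)) = ww d (N + 1) C 0 := by
    rw [show N + 3 = (N + 2) + 1 by ring, gg_succ]
    have h2 := hh_symm (d := d) hd1 (N + 2) (C + (d - 1))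
    push_cast at h2
    rw [show ((N : ℤ) + 2) * (d - 1) - (C + (d - 1)) = C by linarith] at h2
    rw [← h2, show C + ((d : ℤ) - 1) - d = C - 1 by ring]
    have h3 := gg_succ (d := d) (N + 1) C
    unfold gg at h3
    rw [show N + 2 = N + 1 + 1 by ring, h3]
    unfold ww
    simp
  -- the lower bound
  have h2 : ∑ a ∈ Finset.range d, ww d (N + 1) C a ≤ gg d (N + 3) C := by
    rw [show N + 3 = (N + 1) + 2 by ring, gg_two]
    refine Finset.sum_le_sum fun a _ => ?_
    have ha0 : (0 : ℤ) ≤ a := by positivity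
    have h3 : hh d (N + 1) (C - a - d) ≤ hh d (N + 1) (C - d) := by
      refine hh_mono hd1 (N + 1) (by linarith) ?_
      push_cast
      linarith
    unfold ww
    linarith
  have h3 : ∑ a ∈ Finset.range (P + 1), ww d (N + 1) C a ≤ ∑ a ∈ Finset.range d, ww d (N + 1) C a :=
    Finset.sum_le_sum_of_subset_of_nonneg (Finset.range_subset_range.2 (by omega)) fun a ha _ => hnn a ha
  rw [h1]
  linarith

/-- the odd case -/
theorem main_odd (hd : 4 ≤ d) (N : ℕ) (C : ℤ) (P : ℕ) (hC : 2 * C + 1 = (N + 1) * (d - 1)) (hP : 2 * P + 2 ≤ d) :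
    (P + 4) * gg d (N + 3) (C + (d - 1)) ≤ 4 * gg d (N + 3) (C + 1) := by
  have hd1 : 1 ≤ d := by omega
  have hPz : (2 : ℤ) * P + 2 ≤ d := by exact_mod_cast hP
  have hdz : (4 : ℤ) ≤ d := by exact_mod_cast hd
  have hC' : 2 * C ≤ (N + 1) * (d - 1) := by linarith
  have hw := ww_sum hd1 N C P (by linarith) hC' (by omega)
  have hnn : ∀ a, a ≤ d → 0 ≤ ww d (N + 1) C a := by
    intro a ha
    refine ww_nonneg hd1 (N + 1) C ?_ a ha
    push_cast
    exact hC'
  have hsy : hh d (N + 1) (C + 1) = hh d (N + 1) C := by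
    have h2 := hh_symm (d := d) hd1 (N + 1) (C + 1)
    push_cast at h2
    rw [show ((N : ℤ) + 1) * (d - 1) - (C + 1) = C by linarith] at h2
    exact h2.symm
  have hmo : hh d (N + 1) (C - d) ≤ hh d (N + 1) (C + 1 - d) := by
    refine hh_mono hd1 (N + 1) (by linarith) ?_
    push_cast
    linarith
  -- the upper bound
  have h1 : gg d (N + 3) (C + (d - 1)) ≤ 2 * ww d (N + 1) C 0 := by
    rw [show N + 3 = (N + 2) + 1 by ring, gg_succ]
    have h2 := hh_symm (d := d) hd1 (N + 2) (C + (d - 1))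
    push_cast at h2
    rw [show ((N : ℤ) + 2) * (d - 1) - (C + (d - 1)) = C + 1 by linarith] at h2
    rw [← h2, show C + ((d : ℤ) - 1) - d = C - 1 by ring]
    have h3 := gg_succ (d := d) (N + 1) C
    have h4 := gg_succ (d := d) (N + 1) (C + 1)
    unfold gg at h3 h4
    rw [show C + 1 - 1 = C by ring] at h4
    rw [show N + 2 = N + 1 + 1 by ring]
    unfold ww
    simp only [Nat.cast_zero, sub_zero]
    linarith
  -- the lower bound
  have h2 : ww d (N + 1) C 0 - ww d (N + 1) C (d - 1) + ∑ a ∈ Finset.range (d - 1), ww d (N + 1) C a ≤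
      gg d (N + 3) (C + 1) := by
    rw [show N + 3 = (N + 1) + 2 by ring, gg_two]
    obtain ⟨e, rfl⟩ : ∃ e, d = e + 1 := ⟨d - 1, by omega⟩
    rw [Finset.sum_range_succ', Nat.add_sub_cancel, add_comm]
    refine add_le_add (Finset.sum_le_sum fun a _ => ?_) ?_
    · have ha0 : (0 : ℤ) ≤ a := by positivity
      have h3 : hh (e + 1) (N + 1) (C - a - (e + 1 : ℕ)) ≤ hh (e + 1) (N + 1) (C - (e + 1 : ℕ)) := by
        refine hh_mono hd1 (N + 1) (by linarith) ?_
        push_cast at hC' ⊢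
        linarith
      unfold ww
      rw [show C + 1 - ((a + 1 : ℕ) : ℤ) = C - a by push_cast; ring]
      linarith
    · unfold ww
      simp only [Nat.cast_zero, sub_zero]
      rw [hsy, show C + 1 - ((e + 1 : ℕ) : ℤ) = C - e by push_cast; ring]
      linarith
  have h3 : ∑ a ∈ Finset.range (P + 1), ww d (N + 1) C a + ww d (N + 1) C (d - 2) ≤
      ∑ a ∈ Finset.range (d - 1), ww d (N + 1) C a := by
    have h6 : ∑ a ∈ Finset.range (d - 1), ww d (N + 1) C a =
        ∑ a ∈ Finset.range (d - 2), ww d (N + 1) C a + ww d (N + 1) C (d - 2) := by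
      rw [← Finset.sum_range_succ, show d - 2 + 1 = d - 1 by omega]
    rw [h6]
    have h4 : ∑ a ∈ Finset.range (P + 1), ww d (N + 1) C a ≤ ∑ a ∈ Finset.range (d - 2), ww d (N + 1) C a := by
      refine Finset.sum_le_sum_of_subset_of_nonneg (Finset.range_subset_range.2 (by omega)) fun a ha _ => ?_
      rw [Finset.mem_range] at ha
      exact hnn a (by omega)
    linarith
  have h4 : ww d (N + 1) C (d - 1) ≤ ww d (N + 1) C (d - 2) := by
    unfold ww
    have h5 : hh d (N + 1) (C - (d - 1 : ℕ)) ≤ hh d (N + 1) (C - (d - 2 : ℕ)) := by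
      refine hh_mono hd1 (N + 1) (by omega) ?_
      push_cast
      have : (0 : ℤ) ≤ ((d - 2 : ℕ) : ℤ) := by positivity
      linarith
    linarith
  have h5 := hnn 0 (by omega)
  have hP0 : (0 : ℤ) ≤ P := by positivity
  nlinarith [mul_le_mul_of_nonneg_left h1 (by linarith : (0 : ℤ) ≤ (P : ℤ) + 4)]

/-- the weight -/
def aa (n j : ℕ) : ℤ := ((n + j - 1).choose j : ℕ)

theorem aa_step (n k : ℕ) (hn : 1 ≤ n) : (k + 1) * aa n (k + 1) = (n + k) * aa n k := by
  unfold aa
  obtain ⟨m, rfl⟩ : ∃ m, n = m + 1 := ⟨n - 1, by omega⟩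
  rw [show m + 1 + (k + 1) - 1 = (m + k) + 1 by omega, show m + 1 + k - 1 = m + k by omega]
  have h := Nat.add_one_mul_choose_eq (m + k) k
  push_cast
  have h' : ((m + k : ℕ) + 1 : ℤ) * ((m + k).choose k : ℕ) = ((m + k + 1).choose (k + 1) : ℕ) * ((k : ℤ) + 1) := by
    exact_mod_cast h
  push_cast at h'
  linarith

theorem aa_nonneg (n j : ℕ) : 0 ≤ aa n j := by unfold aa; positivity

/-- the alternating sum -/
theorem sum_le (hd : 1 ≤ d) (n k : ℕ) (D : ℤ) (h1 : n * (d - 1) + 1 ≤ 2 * (D - d * k)) :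
    ∑ j ∈ Finset.range (k + 2), aa n j * gg d n (D - d * j) ≤
      aa n (k + 1) * gg d n (D - d * (k + 1)) + aa n k * gg d n (D - d * k) := by
  rw [Finset.sum_range_succ, Finset.sum_range_succ]
  have h2 : ∑ j ∈ Finset.range k, aa n j * gg d n (D - d * j) ≤ 0 := by
    refine Finset.sum_nonpos fun j hj => ?_
    rw [Finset.mem_range] at hj
    have h3 : (d : ℤ) * j ≤ d * k := by
      have : (j : ℤ) ≤ k := by exact_mod_cast hj.le
      exact mul_le_mul_of_nonneg_left this (by positivity)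
    exact mul_nonpos_of_nonneg_of_nonpos (aa_nonneg n j) (gg_nonpos hd n _ (by linarith))
  push_cast
  linarith

end Pool.Agent.V5helper30.WL
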