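import Pool.Agent.Helper720.PowTorus
import Pool.Agent.V5helper30.WL.HH

/-!
# Project WL: the weak Lefschetz property of `S / (x_1^d, …, x_n^d)^k`. Statements.

`InjAt K n d k i 1`, `SurjAt K n d k i 1`, `powIdeal`, `fl`, `el` are in `Pool.Agent.Helper720.Pow*` (`el` is the sum of
the variables; `fl d m = ∑ j, m j / d`; `mem_powIdeal`: a polynomial is in `powIdeal K n d k` iff all its monomials `m` have
`k ≤ fl d m`; `coeff_el_mul`; `down_to`, `up_to`, `chkInv`, … in `PowCert.lean`).
-/

set_option autoImplicit false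

open MvPolynomial

namespace Pool.Agent.V5helper30.WL

open Pool.Agent.Helper720.Pow

/-- the monomials of degree `i` outside `(x_1^d, …, x_n^d)^k` -/
def NN (n d k i : ℕ) : Finset (Fin n →₀ ℕ) :=
  ((Finset.univ : Finset (Fin n)).finsuppAntidiag i).filter fun m => fl d m < k

/-- DUAL. Proof. `A_i = (NN n d k i → K)`, `μ : A_i → A_{i+1}` the multiplication by `el`,
`(μ f) w = ∑ c, w c ≠ 0, f (w - e_c)`. The functional `φ_F g = ∑ w, fact w * coeff w F * g w` on `A_{i+1}` kills the
image of `μ`, since `∑ c, pderiv c F = 0`. The `φ_F` are independent (all the monomials of `F` are in `NN n d k (i+1)`). If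
`InjAt`, then `μ` is injective, and `card NN i + r ≤ card NN (i+1)` by the dimension of the image. If `1 ≤ r` then `μ` is
not surjective. -/
def S_DUAL (K : Type*) [Field K] [CharZero K] : Prop := ∀ (n d k i r : ℕ) (F : Fin r → MvPolynomial (Fin n) K), 1 ≤ d →
  LinearIndependent K F → (∀ t, (F t).IsHomogeneous (i + 1)) → (∀ t, ∑ c, pderiv c (F t) = 0) →
  (∀ t m, coeff m (F t) ≠ 0 → fl d m < k) →
  (InjAt K n d k i 1 → (NN n d k i).card + r ≤ (NN n d k (i + 1)).card) ∧ (1 ≤ r → ¬ SurjAt K n d k i 1)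

/-- CARD. Proof. `m = d α + ρ` with `|α| = fl d m = j < k` and `ρ ∈ [0, d-1]^n`, `|ρ| = D - d j`; the number of `α` is
`(n + j - 1).choose j` (`Finset.card_finsuppAntidiag…` / `Sym` / stars and bars), the number of `ρ` is `hh d n (D - d j)`
(induction on `n`, `Fin.cons`). -/
def S_CARD : Prop := ∀ n d k D : ℕ, 1 ≤ n → 1 ≤ d →
  ((NN n d k D).card : ℤ) = ∑ j ∈ Finset.range k, ((n + j - 1).choose j : ℤ) * hh d n ((D : ℤ) - d * j)

/-- FEX. Proof. First for every `N ≥ 2` and `d ≥ 1` there is a product `G` of differences `X a - X b` in the variables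
`X_0, …, X_{N-1}`, of degree `N (d-1) / 2` (integer division), in which every variable occurs in at most `d - 1` factors:
`N = 2`: `(X 0 - X 1)^(d-1)`; `N = 3`: `(X 0 - X 1)^a (X 1 - X 2)^b (X 0 - X 2)^b` with `a = d / 2`, `b = (d-1) / 2`;
`N → N + 2`: multiply by `(X_N - X_{N+1})^(d-1)`. Then `F = (X_0 - X_1)^(d k - 1) * G(X_2, …, X_{n-1})`. A product of
differences is killed by `∑ c, pderiv c` and nonzero, the degree of its monomials in `X c` is at most the number of
factors containing `X c`; for the monomial `m` of `F`, `m 0 + m 1 = d k - 1`, so `m 0 / d + m 1 / d ≤ k - 1`, and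
`m c / d = 0` for `c ≥ 2`. -/
def S_FEX (K : Type*) [Field K] [CharZero K] : Prop := ∀ n d k : ℕ, 4 ≤ n → 1 ≤ d → 1 ≤ k →
  ∃ F : MvPolynomial (Fin n) K, F ≠ 0 ∧ F.IsHomogeneous (d * k - 1 + (n - 2) * (d - 1) / 2) ∧
    ∑ c, pderiv c F = 0 ∧ ∀ m, coeff m F ≠ 0 → fl d m < k

/-- SP (uses S_DUAL). Proof. For a matching `ab|ce` of `{0,1,2,3}` and `A = d α + d - 1`, `B = d β + d - 1`,
`α + β = k - 1`, the polynomial `(X a - X b)^A (X c - X e)^B` has degree `d k + d - 2`, is killed by `∑ pderiv` and has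
`fl d m < k` on its monomials. This gives `3 k` polynomials for the three matchings; they are independent for `d ≥ 3` (look
at a minor of the matrix of the coefficients). By S_DUAL with `r = 3k = 9, 6, 6` (`r = 7, 6, 4` is
enough), since `card NN (i+1) - card NN i = 6, 5, 3` for `(d,k,i) = (3,3,9), (5,2,12), (6,2,15)` (decide).
So multiplication is not injective. -/
def S_SP (K : Type*) [Field K] [CharZero K] : Prop :=
  ¬ InjAt K 4 3 3 9 1 ∧ ¬ InjAt K 4 5 2 12 1 ∧ ¬ InjAt K 4 6 2 15 1

/-- TWO. Proof. `f = X 0 ^ (2 (k-4)) * ∏ (x_0 ± x_1 ± x_2 ± x_3)` (the `7` sign choices other than `+++`); it is nonzero of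
degree `2 k - 1 < 2 k`, so not in the ideal (`eq_zero_of_lt`); and `el * ∏ … = (∑ x_i^4 - 2 ∑_{i<j} x_i^2 x_j^2)^2 -
64 x_0^2 x_1^2 x_2^2 x_3^2` (ring) is a form of degree `4` in the squares. -/
def S_TWO (K : Type*) [Field K] [CharZero K] : Prop := ∀ k : ℕ, 4 ≤ k → ¬ InjAt K 4 2 k (2 * k - 1) 1

/-- POS. The weak Lefschetz property holds for `(n,d,k) = (4,2,3), (4,3,2), (4,4,2)`: finite check of ranks (true, checked by
computer; `i ≤ d k + d - 3` injective, the others surjective: the critical degrees are `d k + d - 3 → d k + d - 2` (injective) and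
the next one (surjective)). One may pass to the quotient by `el`, that is to `K[x,y,z]` modulo
`(x^d, y^d, z^d, (x+y+z)^d)^k`: ranks of integer matrices of size at most `78`, or use the certificates `chkInv` of
`PowCert.lean` (adapted to four variables), and `down_to`/`up_to` for the other degrees. Three separate jobs. -/
def S_POS23 (K : Type*) [Field K] [CharZero K] : Prop := ∀ i, InjAt K 4 2 3 i 1 ∨ SurjAt K 4 2 3 i 1

def S_POS32 (K : Type*) [Field K] [CharZero K] : Prop := ∀ i, InjAt K 4 3 2 i 1 ∨ SurjAt K 4 3 2 i 1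

def S_POS42 (K : Type*) [Field K] [CharZero K] : Prop := ∀ i, InjAt K 4 4 2 i 1 ∨ SurjAt K 4 4 2 i 1

end Pool.Agent.V5helper30.WL
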